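import Pool.Agent.Helper82.MAH.Spec

/-! # MAH, part STB: the projections keep the slopes (translation, constants, comparison) -/

set_option autoImplicit false

open MeasureTheory Filter Topology Set
open scoped ENNReal InnerProductSpace

namespace Pool.Agent.Helper76.MAH.STB

open Helper82.MAH

variable {d : ℕ}

lemma e_nonneg (K : CC d) {v : E d} (hv : v ∈ K.C) : 0 ≤ ⟪K.e, v⟫_ℝ := by
  by_cases h : v = 0
  · rw [h, inner_zero_right]
  · exact (K.pos v hv h).le

lemma Cl.mono {K : CC d} {a b a' b' : ℝ} {ψ : E d → ℝ} (h : Cl K a b ψ) (ha : a ≤ a')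
    (hb : b ≤ b') : Cl K a' b' ψ := by
  intro x v hv
  have h0 := e_nonneg K hv
  have := h x v hv
  exact ⟨this.1.trans (by gcongr), this.2.trans (by gcongr)⟩

lemma Cl.trans' {K : CC d} {a b : ℝ} {ψ : E d → ℝ} (h : Cl K a b ψ) (w : E d) (κ : ℝ) :
    Cl K a b (fun x => ψ (x + w) + κ) := by
  intro x v hv
  have h1 := h (x + w) v hv
  have e1 : x + v + w = x + w + v := by abel
  have e2 : x - v + w = x + w - v := by abel
  simp only [e1, e2]
  constructor <;> linarith [h1.1, h1.2]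

lemma SG.trans' (hN : S_NRM) {K : CC d} {ψ : E d → ℝ} (h : SG K ψ) (w : E d) (κ : ℝ) :
    SG K (fun x => ψ (x + w) + κ) := by
  obtain ⟨⟨M, hM⟩, c, hc⟩ := h
  obtain ⟨-, -, -, hsub, -⟩ := hN d K 1 1 one_pos one_pos
  refine ⟨⟨M, Cl.trans' hM w κ⟩, c + nrm K 1 1 (-w) - κ, fun x => ?_⟩
  have h1 := hc (x + w)
  have h2 := hsub (x + w) (-w)
  rw [add_neg_cancel_right] at h2
  linarith

lemma phi_trans (hI : S_ITG) {K : CC d} {a b : ℝ} {β θ : E d → ℝ} (hβ : SG K β)
    (hθ : Cl K a b θ) (hi : Integrable (fun x => Real.exp (-θ x))) (w : E d) (κ : ℝ) :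
    Phi (fun x => β (x + w) + κ) (fun x => θ (x + w) + κ) =
      Real.exp (-κ) * (Phi β θ + κ * ∫ x, Real.exp (-β x)) := by
  have hcl : Cl K (max a b) (max a b) θ := Cl.mono hθ (le_max_left _ _) (le_max_right _ _)
  obtain ⟨i1, i2⟩ := hI d K β θ (max a b) hβ hcl
  unfold Phi
  have e1 : ∀ x, Real.exp (-(β (x + w) + κ)) * (θ (x + w) + κ) + Real.exp (-(θ (x + w) + κ)) =
      (fun y => Real.exp (-κ) * ((Real.exp (-β y) * θ y + Real.exp (-θ y)) +
        κ * Real.exp (-β y))) (x + w) := by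
    intro x
    simp only [neg_add, Real.exp_add]
    ring
  simp only [e1]
  rw [integral_add_right_eq_self (fun y => Real.exp (-κ) * ((Real.exp (-β y) * θ y +
    Real.exp (-θ y)) + κ * Real.exp (-β y))) w, integral_const_mul]
  congr 1
  have h4 : Integrable (fun x => Real.exp (-β x) * θ x + Real.exp (-θ x)) := i2.add hi
  rw [integral_add h4 (i1.const_mul κ), integral_const_mul]

lemma isP_trans (hN : S_NRM) (hI : S_ITG) {K : CC d} {a b : ℝ} {β ψ : E d → ℝ} (hβ : SG K β)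
    (h : IsP K a b β ψ) (w : E d) (κ : ℝ) :
    IsP K a b (fun x => β (x + w) + κ) (fun x => ψ (x + w) + κ) := by
  obtain ⟨h1, h2, h3⟩ := h
  refine ⟨SG.trans' hN h1 w κ, Cl.trans' h2 w κ, ?_⟩
  intro θ hθ hi
  have hθ' : Cl K a b (fun x => θ (x + -w) + -κ) := Cl.trans' hθ (-w) (-κ)
  have hi' : Integrable (fun x => Real.exp (-(θ (x + -w) + -κ))) := by
    have := (hi.comp_add_right (-w)).const_mul (Real.exp κ)
    refine this.congr (Eventually.of_forall fun x => ?_)
    simp only [neg_add, neg_neg, Real.exp_add]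
    ring
  have hiψ : Integrable (fun x => Real.exp (-ψ x)) := by
    obtain ⟨M, hM⟩ := h1.1
    exact (hI d K ψ ψ M h1 hM).1
  have e1 := phi_trans hI hβ h2 hiψ w κ
  have e2 := phi_trans hI hβ hθ' hi' w κ
  have e3 : (fun x => (fun x => θ (x + -w) + -κ) (x + w) + κ) = θ := by
    funext x
    simp
  rw [e3] at e2
  rw [e1, e2]
  have := h3 _ hθ' hi'
  gcongr

theorem main (h1 : S_CMP) (h2 : S_NRM) (h3 : S_ITG) : S_STB := by
  intro d K a b a' b' β ψ ha hb hβ hP hcl x v hv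
  constructor
  · have hP' := isP_trans h2 h3 hβ hP v (-(a' * ⟪K.e, v⟫_ℝ))
    have h := h1 d K a b _ β _ ψ ha hb (SG.trans' h2 hβ v _) hβ
      (fun y => by have := (hcl y v hv).1; linarith) hP' hP x
    linarith
  · have hP' := isP_trans h2 h3 hβ hP (-v) (-(b' * ⟪K.e, v⟫_ℝ))
    have h := h1 d K a b _ β _ ψ ha hb (SG.trans' h2 hβ (-v) _) hβ
      (fun y => by have := (hcl y v hv).2; rw [← sub_eq_add_neg y v]; linarith) hP' hP x
    rw [← sub_eq_add_neg x v] at h
    linarith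

end Pool.Agent.Helper76.MAH.STB
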